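import Mathlib

set_option autoImplicit false

namespace Pool.Agent.Results.MP_6d30b5_co.PeriodicityFails

open Finset

/-- `s₃(G)`: the number of 3-element vertex sets inducing a connected subgraph. -/
noncomputable def s3 {V : Type} (G : SimpleGraph V) : ℕ :=
  {S : Finset V | #S = 3 ∧ (G.induce (S : Set V)).Connected}.ncard

/-- `m(n,e)`: the minimum of `s₃(G)` over graphs with `n` vertices and `e` edges. -/
noncomputable def m (n e : ℕ) : ℕ :=
  sInf {s | ∃ (V : Type) (_ : Fintype V) (G : SimpleGraph V),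
    Fintype.card V = n ∧ G.edgeSet.ncard = e ∧ s3 G = s}

/-- `P_p` -/
def PP (p : ℕ) : ℕ := (p + 2).choose 2

/-- `D_p` -/
def DD (p : ℕ) : ℕ := p * (p + 1) * (p + 2) / 3

/-! ### Counting connected triples -/

section count

variable {V : Type} [Fintype V] [DecidableEq V] (G : SimpleGraph V) [DecidableRel G.Adj]

/-- indicator of adjacency -/
def ad (u v : V) : ℤ := if G.Adj u v then 1 else 0

omit [Fintype V] [DecidableEq V] in
lemma ad_symm (u v : V) : ad G u v = ad G v u := by
  unfold ad; simp [G.adj_comm]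

/-- a triple has a vertex adjacent to the two others -/
def Cen (a b c : V) : Prop :=
  (G.Adj a b ∧ G.Adj a c) ∨ (G.Adj b a ∧ G.Adj b c) ∨ (G.Adj c a ∧ G.Adj c b)

instance (a b c : V) : Decidable (Cen G a b c) := by unfold Cen; infer_instance

omit [Fintype V] [DecidableRel G.Adj] in
lemma connected_iff {a b c : V} (hab : a ≠ b) (hac : a ≠ c) (hbc : b ≠ c) :
    (G.induce (({a, b, c} : Finset V) : Set V)).Connected ↔ Cen G a b c := by
  constructor
  · intro h
    -- every vertex of the triple has a neighbour in the triple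
    have hn : ∀ u ∈ ({a, b, c} : Finset V), ∀ w ∈ ({a, b, c} : Finset V), u ≠ w →
        ∃ z ∈ ({a, b, c} : Finset V), G.Adj u z := by
      intro u hu w hw huw
      obtain ⟨p⟩ := h.preconnected ⟨u, by exact_mod_cast hu⟩ ⟨w, by exact_mod_cast hw⟩
      cases p with
      | nil => exact absurd rfl huw
      | cons h' q =>
        rename_i z
        exact ⟨z.1, by exact_mod_cast z.2, h'⟩
    have ha := hn a (by simp) b (by simp) hab
    have hb := hn b (by simp) a (by simp) hab.symm
    have hc := hn c (by simp) a (by simp) hac.symm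
    simp only [Finset.mem_insert, Finset.mem_singleton, exists_eq_or_imp, exists_eq_left,
      SimpleGraph.irrefl, false_or, or_false] at ha hb hc
    unfold Cen
    rcases ha with h1 | h1 <;> rcases hb with h2 | h2 <;> rcases hc with h3 | h3
    · exact Or.inl ⟨h1, h3.symm⟩
    · exact Or.inr (Or.inl ⟨h2, h3.symm⟩)
    · exact Or.inl ⟨h1, h3.symm⟩
    · exact Or.inr (Or.inl ⟨h1.symm, h2⟩)
    · exact Or.inl ⟨h2.symm, h1⟩
    · exact Or.inr (Or.inr ⟨h1.symm, h3⟩)
    · exact Or.inr (Or.inr ⟨h1.symm, h2.symm⟩)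
    · exact Or.inr (Or.inr ⟨h1.symm, h3⟩)
  · intro h
    have key : ∀ v ∈ ({a, b, c} : Finset V),
        (∀ u ∈ ({a, b, c} : Finset V), u ≠ v → G.Adj v u) →
        (G.induce (({a, b, c} : Finset V) : Set V)).Connected := by
      intro v hv hu
      have hv' : v ∈ (({a, b, c} : Finset V) : Set V) := by exact_mod_cast hv
      rw [SimpleGraph.connected_iff_exists_forall_reachable]
      refine ⟨⟨v, hv'⟩, fun w => ?_⟩
      by_cases hw : w = ⟨v, hv'⟩
      · rw [hw]
      · have hw' : w.1 ≠ v := fun h => hw (Subtype.ext h)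
        have hadj : (G.induce (({a, b, c} : Finset V) : Set V)).Adj ⟨v, hv'⟩ w :=
          hu w.1 (by exact_mod_cast w.2) hw'
        exact hadj.reachable
    rcases h with ⟨h1, h2⟩ | ⟨h1, h2⟩ | ⟨h1, h2⟩
    · refine key a (by simp) fun u hu hne => ?_
      simp only [Finset.mem_insert, Finset.mem_singleton] at hu
      rcases hu with rfl | rfl | rfl
      · exact absurd rfl hne
      · exact h1
      · exact h2
    · refine key b (by simp) fun u hu hne => ?_
      simp only [Finset.mem_insert, Finset.mem_singleton] at hu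
      rcases hu with rfl | rfl | rfl
      · exact h1
      · exact absurd rfl hne
      · exact h2
    · refine key c (by simp) fun u hu hne => ?_
      simp only [Finset.mem_insert, Finset.mem_singleton] at hu
      rcases hu with rfl | rfl | rfl
      · exact h1
      · exact h2
      · exact absurd rfl hne

/-- ordered triples of distinct vertices with a centre -/
def TT : Finset (V × V × V) :=
  univ.filter (fun t => t.1 ≠ t.2.1 ∧ t.1 ≠ t.2.2 ∧ t.2.1 ≠ t.2.2 ∧ Cen G t.1 t.2.1 t.2.2)

lemma six_s3 : 6 * s3 G = #(TT G) := by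
  classical
  have hset : {S : Finset V | #S = 3 ∧ (G.induce (S : Set V)).Connected} =
      ((TT G).image (fun t => ({t.1, t.2.1, t.2.2} : Finset V)) : Finset (Finset V)) := by
    ext S
    simp only [Set.mem_ofPred_eq, Finset.coe_image, Set.mem_image, Finset.mem_coe, TT,
      Finset.mem_filter, Finset.mem_univ, true_and, Prod.exists]
    constructor
    · rintro ⟨hS, hc⟩
      obtain ⟨a, b, c, hab, hac, hbc, rfl⟩ := Finset.card_eq_three.mp hS
      exact ⟨a, b, c, ⟨hab, hac, hbc, (connected_iff G hab hac hbc).mp hc⟩, rfl⟩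
    · rintro ⟨a, b, c, ⟨hab, hac, hbc, h⟩, rfl⟩
      exact ⟨Finset.card_eq_three.mpr ⟨a, b, c, hab, hac, hbc, rfl⟩,
        (connected_iff G hab hac hbc).mpr h⟩
  unfold s3
  rw [hset, Set.ncard_coe_finset]
  rw [Finset.card_eq_sum_card_image (fun t : V × V × V => ({t.1, t.2.1, t.2.2} : Finset V)) (TT G)]
  rw [Finset.sum_const_nat (m := 6), mul_comm]
  intro S hS
  rw [Finset.mem_image] at hS
  obtain ⟨⟨a, b, c⟩, ht, rfl⟩ := hS
  simp only [TT, Finset.mem_filter, Finset.mem_univ, true_and] at ht
  obtain ⟨hab, hac, hbc, hcen⟩ := ht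
  have hfib : (TT G).filter (fun t => ({t.1, t.2.1, t.2.2} : Finset V) = {a, b, c}) =
      {(a, b, c), (a, c, b), (b, a, c), (b, c, a), (c, a, b), (c, b, a)} := by
    ext ⟨x, y, z⟩
    simp only [TT, Finset.mem_filter, Finset.mem_univ, true_and, Finset.mem_insert,
      Finset.mem_singleton, Prod.mk.injEq]
    constructor
    · rintro ⟨⟨hxy, hxz, hyz, -⟩, hS⟩
      have hx : x ∈ ({a, b, c} : Finset V) := by rw [← hS]; simp
      have hy : y ∈ ({a, b, c} : Finset V) := by rw [← hS]; simp
      have hz : z ∈ ({a, b, c} : Finset V) := by rw [← hS]; simp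
      simp only [Finset.mem_insert, Finset.mem_singleton] at hx hy hz
      rcases hx with rfl | rfl | rfl <;> rcases hy with rfl | rfl | rfl <;>
        rcases hz with rfl | rfl | rfl <;> simp_all
    · unfold Cen at hcen ⊢
      rintro (⟨rfl, rfl, rfl⟩ | ⟨rfl, rfl, rfl⟩ | ⟨rfl, rfl, rfl⟩ | ⟨rfl, rfl, rfl⟩ |
        ⟨rfl, rfl, rfl⟩ | ⟨rfl, rfl, rfl⟩)
      · exact ⟨⟨hab, hac, hbc, hcen⟩, rfl⟩
      · refine ⟨⟨hac, hab, hbc.symm, by tauto⟩, ?_⟩
        ext w; simp only [Finset.mem_insert, Finset.mem_singleton]; tauto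
      · refine ⟨⟨hab.symm, hbc, hac, by tauto⟩, ?_⟩
        ext w; simp only [Finset.mem_insert, Finset.mem_singleton]; tauto
      · refine ⟨⟨hbc, hab.symm, hac.symm, by tauto⟩, ?_⟩
        ext w; simp only [Finset.mem_insert, Finset.mem_singleton]; tauto
      · refine ⟨⟨hac.symm, hbc.symm, hab, by tauto⟩, ?_⟩
        ext w; simp only [Finset.mem_insert, Finset.mem_singleton]; tauto
      · refine ⟨⟨hbc.symm, hac.symm, hab.symm, by tauto⟩, ?_⟩
        ext w; simp only [Finset.mem_insert, Finset.mem_singleton]; tauto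
  rw [hfib]
  have hba := hab.symm
  have hca := hac.symm
  have hcb := hbc.symm
  rw [Finset.card_insert_of_notMem, Finset.card_insert_of_notMem, Finset.card_insert_of_notMem,
    Finset.card_insert_of_notMem, Finset.card_insert_of_notMem, Finset.card_singleton] <;>
    simp [hab, hac, hbc, hba, hca, hcb]

/-- ordered induced cherries `(x, v, y)` with centre `v` -/
def QQ : Finset (V × V × V) :=
  univ.filter (fun t => G.Adj t.2.1 t.1 ∧ G.Adj t.2.1 t.2.2 ∧ t.1 ≠ t.2.2 ∧ ¬ G.Adj t.1 t.2.2)

/-- `6 s₃ = ∑ d(d-1) + 2 Q` -/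
lemma six_s3_eq : (6 * s3 G : ℤ) = ∑ v, (G.degree v : ℤ) * (G.degree v - 1) + 2 * #(QQ G) := by
  classical
  have h6 : (6 * s3 G : ℤ) = #(TT G) := by exact_mod_cast six_s3 G
  rw [h6]
  -- indicator of distinctness
  let ne : V → V → ℤ := fun u v => if u = v then 0 else 1
  let ch : V → V → V → ℤ := fun x y z => ne y z * (ad G x y * ad G x z)
  let tr : V → V → V → ℤ := fun a b c => ad G a b * ad G b c * ad G a c
  have hT : (#(TT G) : ℤ) = ∑ a, ∑ b, ∑ c, (ch b a c + ch a b c + ch c a b - 2 * tr a b c) := by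
    unfold TT
    rw [Finset.card_filter]
    push_cast
    rw [Fintype.sum_prod_type]
    refine Finset.sum_congr rfl fun a _ => ?_
    rw [Fintype.sum_prod_type]
    refine Finset.sum_congr rfl fun b _ => Finset.sum_congr rfl fun c _ => ?_
    have e1 := G.adj_comm a b
    have e2 := G.adj_comm a c
    have e3 := G.adj_comm b c
    by_cases hab : a = b
    · subst hab
      simp [ch, tr, ad, ne]
    · by_cases hac : a = c
      · subst hac; simp [ch, tr, ad, ne]
      · by_cases hbc : b = c
        · subst hbc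
          simp [ch, tr, ad, ne]
        · by_cases h1 : G.Adj a b <;> by_cases h2 : G.Adj a c <;> by_cases h3 : G.Adj b c <;>
            simp [ch, tr, ad, ne, Cen, hab, hac, hbc, h1, h2, h3, ← e1, ← e2, ← e3]
  have hQ : (#(QQ G) : ℤ) = ∑ a, ∑ b, ∑ c, (ch b a c - tr a b c) := by
    unfold QQ
    rw [Finset.card_filter]
    push_cast
    rw [Fintype.sum_prod_type]
    refine Finset.sum_congr rfl fun a _ => ?_
    rw [Fintype.sum_prod_type]
    refine Finset.sum_congr rfl fun b _ => Finset.sum_congr rfl fun c _ => ?_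
    have e1 := G.adj_comm a b
    by_cases hac : a = c
    · subst hac
      simp [ch, tr, ad, ne]
    · by_cases h1 : G.Adj a b <;> by_cases h2 : G.Adj a c <;> by_cases h3 : G.Adj b c <;>
        simp [ch, tr, ad, ne, hac, h1, h2, h3, ← e1]
  have hD : ∑ v, (G.degree v : ℤ) * (G.degree v - 1) = ∑ b, ∑ a, ∑ c, ch b a c := by
    refine Finset.sum_congr rfl fun b _ => ?_
    have h1 : (G.degree b : ℤ) = ∑ a, ad G b a := by
      unfold ad
      rw [← SimpleGraph.card_neighborFinset_eq_degree, Finset.sum_boole]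
      congr 2
      ext u; simp
    have h2 : ∀ a, ∑ c, ch b a c =
        ad G b a * (G.degree b) - ad G b a * ad G b a := by
      intro a
      have h3 : ∀ c, ch b a c =
          ad G b a * ad G b c - if a = c then ad G b a * ad G b c else 0 := by
        intro c
        by_cases hac : a = c <;> simp [ch, ne, hac]
      rw [Finset.sum_congr rfl fun c _ => h3 c, Finset.sum_sub_distrib, ← Finset.mul_sum, ← h1]
      simp
    rw [Finset.sum_congr rfl fun a _ => h2 a, Finset.sum_sub_distrib, ← Finset.sum_mul, ← h1]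
    have h4 : ∀ a, ad G b a * ad G b a = ad G b a := by
      intro a; unfold ad; split_ifs <;> norm_num
    rw [Finset.sum_congr rfl fun a _ => h4 a, ← h1]
    ring
  -- the rotations of the cherry sum agree
  have r1 : ∑ a, ∑ b, ∑ c, ch b a c = ∑ b, ∑ a, ∑ c, ch b a c := Finset.sum_comm
  have r2 : ∑ a, ∑ b, ∑ c, ch c a b = ∑ c, ∑ a, ∑ b, ch c a b := by
    rw [Finset.sum_comm (f := fun c a => ∑ b, ch c a b)]
    refine Finset.sum_congr rfl fun a _ => ?_
    exact Finset.sum_comm
  have r3 : ∑ a, ∑ b, ∑ c, ch a b c = ∑ b, ∑ a, ∑ c, ch b a c := rfl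
  have r4 : ∑ c, ∑ a, ∑ b, ch c a b = ∑ b, ∑ a, ∑ c, ch b a c := rfl
  rw [hT, hQ, hD]
  simp only [Finset.sum_add_distrib, Finset.sum_sub_distrib, ← Finset.mul_sum]
  rw [r1, r2, r3, r4]
  ring

/-- an induced cherry with a centre of degree `d` forces `2(d-1)` ordered induced cherries -/
lemma QQ_card {x v y : V} (h : (x, v, y) ∈ QQ G) : 2 * (G.degree v - 1) ≤ #(QQ G) := by
  classical
  simp only [QQ, Finset.mem_filter, Finset.mem_univ, true_and] at h
  obtain ⟨hvx, hvy, hxy, hnxy⟩ := h
  have hyx : ¬ G.Adj y x := fun h => hnxy h.symm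
  let f : V → V × V × V := fun z =>
    if ¬ G.Adj x z then (x, v, z) else if ¬ G.Adj y z then (y, v, z) else (x, z, y)
  let rv : V × V × V → V × V × V := fun t => (t.2.2, t.2.1, t.1)
  let A := (G.neighborFinset v).erase x
  have hA : #A = G.degree v - 1 := by
    rw [Finset.card_erase_of_mem (by simpa using hvx), SimpleGraph.card_neighborFinset_eq_degree]
  have hmem : ∀ z ∈ A, z ≠ x ∧ G.Adj v z := by
    intro z hz
    simpa [A] using hz
  have hrv : Function.Injective rv := by
    rintro ⟨a, b, c⟩ ⟨a', b', c'⟩ h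
    simp only [rv, Prod.mk.injEq] at h ⊢
    exact ⟨h.2.2, h.2.1, h.1⟩
  have hfinj : Set.InjOn f (A : Set V) := by
    intro z hz z' hz' hzz
    have h1 := (hmem z (by exact_mod_cast hz)).2.ne
    have h2 := (hmem z' (by exact_mod_cast hz')).2.ne
    simp only [f] at hzz
    split_ifs at hzz <;> simp only [Prod.mk.injEq] at hzz
    all_goals first
      | exact hzz.2.2
      | exact hzz.2.1
      | exact absurd hzz.2.1 h1
      | exact absurd hzz.2.1.symm h1
      | exact absurd hzz.2.1 h2
      | exact absurd hzz.2.1.symm h2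
      | exact absurd hzz.1 hxy
      | exact absurd hzz.1.symm hxy
  have hfQ : ∀ z ∈ A, f z ∈ QQ G := by
    intro z hz
    obtain ⟨hzx, hvz⟩ := hmem z hz
    have hQmem : ∀ a b c : V, G.Adj b a → G.Adj b c → a ≠ c → ¬ G.Adj a c → (a, b, c) ∈ QQ G := by
      intro a b c h1 h2 h3 h4
      simp only [QQ, Finset.mem_filter, Finset.mem_univ, true_and]
      exact ⟨h1, h2, h3, h4⟩
    by_cases h1 : G.Adj x z
    · by_cases h2 : G.Adj y z
      · have : f z = (x, z, y) := by simp [f, h1, h2]
        rw [this]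
        exact hQmem _ _ _ h1.symm h2.symm hxy hnxy
      · have : f z = (y, v, z) := by simp [f, h1, h2]
        rw [this]
        refine hQmem _ _ _ hvy hvz (fun h => ?_) h2
        rw [← h] at h1
        exact hnxy h1
    · have : f z = (x, v, z) := by simp [f, h1]
      rw [this]
      exact hQmem _ _ _ hvx hvz (fun h => hzx h.symm) h1
  have hrvQ : ∀ t ∈ QQ G, rv t ∈ QQ G := by
    intro t ht
    simp only [rv, QQ, Finset.mem_filter, Finset.mem_univ, true_and] at ht ⊢
    exact ⟨ht.2.1, ht.1, fun h => ht.2.2.1 h.symm, fun h => ht.2.2.2 h.symm⟩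
  have hdisj : Disjoint (A.image f) ((A.image f).image rv) := by
    rw [Finset.disjoint_left]
    intro t ht ht'
    rw [Finset.mem_image] at ht
    obtain ⟨z, hz, rfl⟩ := ht
    rw [Finset.image_image, Finset.mem_image] at ht'
    obtain ⟨z', hz', heq⟩ := ht'
    obtain ⟨hzx, hvz⟩ := hmem z hz
    obtain ⟨hzx', hvz'⟩ := hmem z' hz'
    have hv1 := hvz.ne
    have hv2 := hvz'.ne
    simp only [f, rv, Function.comp] at heq
    by_cases c1 : G.Adj x z <;> by_cases c2 : G.Adj y z <;> by_cases c3 : G.Adj x z' <;>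
      by_cases c4 : G.Adj y z' <;>
      simp only [c1, c2, c3, c4, not_true_eq_false, not_false_eq_true, if_true, if_false,
        Prod.mk.injEq] at heq
    all_goals obtain ⟨e1, e2, e3⟩ := heq
    all_goals first
      | exact hxy e1
      | exact hxy e1.symm
      | exact hzx e1.symm
      | exact hzx e1
      | exact hzx' e1
      | exact hzx' e1.symm
      | exact hxy e3
      | exact hxy e3.symm
      | exact hzx e3
      | exact hzx e3.symm
      | exact hv1 e2
      | exact hv1 e2.symm
      | exact hv2 e2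
      | exact hv2 e2.symm
      | (rw [← e3] at c1; exact hnxy c1)
  have hsub : A.image f ∪ (A.image f).image rv ⊆ QQ G := by
    intro t ht
    rw [Finset.mem_union] at ht
    rcases ht with ht | ht
    · rw [Finset.mem_image] at ht
      obtain ⟨z, hz, rfl⟩ := ht
      exact hfQ z hz
    · rw [Finset.mem_image] at ht
      obtain ⟨t', ht', rfl⟩ := ht
      rw [Finset.mem_image] at ht'
      obtain ⟨z, hz, rfl⟩ := ht'
      exact hrvQ _ (hfQ z hz)
  have := Finset.card_le_card hsub
  rw [Finset.card_union_of_disjoint hdisj, Finset.card_image_of_injective _ hrv,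
    Finset.card_image_of_injOn hfinj, hA] at this
  omega

/-- the excess of a graph whose degree sum is just below `(p+1) n` -/
lemma excess (p : ℕ) (hp : 2 ≤ p) (hsum : ∑ v, ((p : ℤ) + 1 - G.degree v) = p - 1) :
    2 * (p : ℤ) <
      ∑ v, ((G.degree v : ℤ) - p) * ((G.degree v : ℤ) - p - 1) + 2 * #(QQ G) := by
  classical
  have hterm : ∀ v : V, 0 ≤ ((G.degree v : ℤ) - p) * ((G.degree v : ℤ) - p - 1) := by
    intro v
    rcases le_or_gt (G.degree v : ℤ) p with h | h
    · nlinarith
    · nlinarith
  have hpz : (2 : ℤ) ≤ p := by exact_mod_cast hp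
  by_contra hcon
  push Not at hcon
  have hQ0 : (0 : ℤ) ≤ #(QQ G) := by positivity
  rcases Finset.eq_empty_or_nonempty (QQ G) with hQ | ⟨⟨x, v, y⟩, hQ⟩
  · -- no induced cherry: `G` is a disjoint union of complete graphs
    have htrans : ∀ a b c : V, G.Adj b a → G.Adj b c → a ≠ c → G.Adj a c := by
      intro a b c h1 h2 h3
      by_contra h4
      have : (a, b, c) ∈ QQ G := by
        simp only [QQ, Finset.mem_filter, Finset.mem_univ, true_and]
        exact ⟨h1, h2, h3, h4⟩
      rw [hQ] at this
      simp at this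
    have hdeg : ∀ u v : V, G.Adj v u → G.degree v = G.degree u := by
      intro u v huv
      have hle : ∀ u v : V, G.Adj v u → G.degree v ≤ G.degree u := by
        intro u v huv
        rw [← SimpleGraph.card_neighborFinset_eq_degree, ← SimpleGraph.card_neighborFinset_eq_degree]
        have h1 : #((G.neighborFinset v).erase u) ≤ #((G.neighborFinset u).erase v) := by
          refine Finset.card_le_card fun w hw => ?_
          simp only [Finset.mem_erase, SimpleGraph.mem_neighborFinset] at hw ⊢
          exact ⟨hw.2.ne.symm, htrans u v w huv hw.2 hw.1.symm⟩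
        rw [Finset.card_erase_of_mem (by simpa using huv),
          Finset.card_erase_of_mem (by simpa using huv.symm)] at h1
        have h2 : 0 < #(G.neighborFinset v) := Finset.card_pos.mpr ⟨u, by simpa using huv⟩
        have h3 : 0 < #(G.neighborFinset u) := Finset.card_pos.mpr ⟨v, by simpa using huv.symm⟩
        omega
      exact le_antisymm (hle u v huv) (hle v u huv.symm)
    -- the closed neighbourhood of `v`
    have hN : ∀ v : V, ∀ F : ℕ → ℤ, ∑ u ∈ insert v (G.neighborFinset v), F (G.degree u) =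
        ((G.degree v : ℤ) + 1) * F (G.degree v) := by
      intro v F
      rw [Finset.sum_congr rfl (g := fun _ => F (G.degree v))]
      · rw [Finset.sum_const, Finset.card_insert_of_notMem (by simp),
          SimpleGraph.card_neighborFinset_eq_degree]
        simp
      · intro u hu
        rw [Finset.mem_insert, SimpleGraph.mem_neighborFinset] at hu
        rcases hu with rfl | hu
        · rfl
        · rw [hdeg u v hu]
    have hQc : (#(QQ G) : ℤ) = 0 := by rw [hQ]; simp
    have hbound : ∀ v : V, ((G.degree v : ℤ) + 1) *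
        (((G.degree v : ℤ) - p) * ((G.degree v : ℤ) - p - 1)) ≤ 2 * p := by
      intro v
      have h1 := hN v (fun d => ((d : ℤ) - p) * ((d : ℤ) - p - 1))
      have h2 : ∑ u ∈ insert v (G.neighborFinset v),
          ((G.degree u : ℤ) - p) * ((G.degree u : ℤ) - p - 1) ≤
          ∑ u, ((G.degree u : ℤ) - p) * ((G.degree u : ℤ) - p - 1) :=
        Finset.sum_le_sum_of_subset_of_nonneg (Finset.subset_univ _) (fun u _ _ => hterm u)
      beta_reduce at h1
      rw [h1] at h2
      linarith
    -- all degrees are `p-1`, `p` or `p+1`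
    have hrange : ∀ v : V, (p : ℤ) - 1 ≤ G.degree v ∧ (G.degree v : ℤ) ≤ p + 1 := by
      intro v
      have hb := hbound v
      have hd0 : (0 : ℤ) ≤ G.degree v := by positivity
      set d : ℤ := ((G.degree v : ℕ) : ℤ) with hd
      constructor
      · by_contra h
        push Not at h
        -- k = p - d ≥ 2
        have hk : 2 ≤ (p : ℤ) - d := by omega
        have h1 : (p : ℤ) ≤ (d + 1) * (p - d) := by nlinarith
        have h2 : (d + 1) * ((d - p) * (d - p - 1)) = ((d + 1) * (p - d)) * (p - d + 1) := by ring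
        rw [h2] at hb
        nlinarith
      · by_contra h
        push Not at h
        have hj : (2 : ℤ) ≤ d - p := by omega
        have h1 : (2 : ℤ) ≤ (d - p) * (d - p - 1) := by nlinarith
        nlinarith
    have hnn : ∀ u : V, 0 ≤ (p : ℤ) + 1 - G.degree u := fun u => by
      have := (hrange u).2; linarith
    by_cases hall : ∀ v : V, (G.degree v : ℤ) = p + 1
    · rw [Finset.sum_congr rfl (g := fun _ => (0 : ℤ)) (fun v _ => by rw [hall v]; ring)] at hsum
      simp at hsum
      omega
    · push Not at hall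
      obtain ⟨v, hv⟩ := hall
      have h1 := hN v (fun d => (p : ℤ) + 1 - d)
      have h2 : ∑ u ∈ insert v (G.neighborFinset v), ((p : ℤ) + 1 - G.degree u) ≤
          ∑ u, ((p : ℤ) + 1 - G.degree u) :=
        Finset.sum_le_sum_of_subset_of_nonneg (Finset.subset_univ _) (fun u _ _ => hnn u)
      beta_reduce at h1
      rw [h1, hsum] at h2
      have h3 := hrange v
      have h4 : (G.degree v : ℤ) = p - 1 ∨ (G.degree v : ℤ) = p := by omega
      rcases h4 with h4 | h4 <;> rw [h4] at h2 <;> nlinarith
  · -- an induced cherry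
    have hq := QQ_card G hQ
    have hQ' := hQ
    simp only [QQ, Finset.mem_filter, Finset.mem_univ, true_and] at hQ'
    obtain ⟨hvx, hvy, hxy, hnxy⟩ := hQ'
    have hd2 : 2 ≤ G.degree v := by
      rw [← SimpleGraph.card_neighborFinset_eq_degree]
      have : ({x, y} : Finset V) ⊆ G.neighborFinset v := by
        intro w hw
        simp only [Finset.mem_insert, Finset.mem_singleton] at hw
        rcases hw with rfl | rfl
        · simpa using hvx
        · simpa using hvy
      have h2 := Finset.card_le_card this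
      rwa [Finset.card_pair hxy] at h2
    have hq' : 2 * ((G.degree v : ℤ) - 1) ≤ #(QQ G) := by
      have : (2 * (G.degree v - 1 : ℕ) : ℤ) ≤ #(QQ G) := by exact_mod_cast hq
      rw [Nat.cast_sub (by omega)] at this
      simpa using this
    have hsv : ((G.degree v : ℤ) - p) * ((G.degree v : ℤ) - p - 1) ≤
        ∑ u, ((G.degree u : ℤ) - p) * ((G.degree u : ℤ) - p - 1) :=
      Finset.single_le_sum (f := fun u => ((G.degree u : ℤ) - p) * ((G.degree u : ℤ) - p - 1))
        (fun u _ => hterm u) (Finset.mem_univ v)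
    have hd2' : (2 : ℤ) ≤ G.degree v := by exact_mod_cast hd2
    -- the centre has degree two and `p ≤ 3`
    have hkey : (p : ℤ) ≤ 3 ∧ (G.degree v : ℤ) = 2 := by
      set d : ℤ := ((G.degree v : ℕ) : ℤ) with hd
      have h1 : d ^ 2 - (2 * p - 3) * d + p ^ 2 - p - 4 ≤ 0 := by nlinarith
      have hp3 : (p : ℤ) ≤ 3 := by
        by_contra h
        push Not at h
        nlinarith [sq_nonneg (2 * d - (2 * p - 3))]
      refine ⟨hp3, ?_⟩
      have : (p : ℤ) = 2 ∨ (p : ℤ) = 3 := by omega
      rcases this with h | h <;> rw [h] at h1 <;> nlinarith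
    obtain ⟨hp3, hd⟩ := hkey
    have hdn : G.degree v = 2 := by exact_mod_cast hd
    have hNv : G.neighborFinset v = {x, y} := by
      symm
      apply Finset.eq_of_subset_of_card_le
      · intro w hw
        simp only [Finset.mem_insert, Finset.mem_singleton] at hw
        rcases hw with rfl | rfl
        · simpa using hvx
        · simpa using hvy
      · rw [SimpleGraph.card_neighborFinset_eq_degree, hdn, Finset.card_pair hxy]
    by_cases hx1 : G.degree x = 1
    · -- then `x` contributes
      have hvx' : v ≠ x := hvx.ne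
      have h2 : ∑ u ∈ ({v, x} : Finset V), ((G.degree u : ℤ) - p) * ((G.degree u : ℤ) - p - 1) ≤
          ∑ u, ((G.degree u : ℤ) - p) * ((G.degree u : ℤ) - p - 1) :=
        Finset.sum_le_sum_of_subset_of_nonneg (Finset.subset_univ _) (fun u _ _ => hterm u)
      rw [Finset.sum_pair hvx', hd, hx1] at h2
      have : (p : ℤ) = 2 ∨ (p : ℤ) = 3 := by omega
      rw [hd] at hq'
      rcases this with h | h <;> rw [h] at h2 hcon <;> norm_num at h2 hcon hq' <;> linarith
    · -- `x` has another neighbour
      have hx2 : ∃ z, G.Adj x z ∧ z ≠ v := by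
        by_contra hno
        push Not at hno
        apply hx1
        rw [← SimpleGraph.card_neighborFinset_eq_degree]
        rw [Finset.card_eq_one]
        refine ⟨v, ?_⟩
        ext w
        simp only [SimpleGraph.mem_neighborFinset, Finset.mem_singleton]
        constructor
        · exact hno w
        · rintro rfl; exact hvx.symm
      obtain ⟨z, hxz, hzv⟩ := hx2
      have hvz : ¬ G.Adj v z := by
        intro h
        have : z ∈ G.neighborFinset v := by simpa using h
        rw [hNv] at this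
        simp only [Finset.mem_insert, Finset.mem_singleton] at this
        rcases this with rfl | rfl
        · exact hxz.ne rfl
        · exact hnxy hxz
      have hsub : ({(x, v, y), (y, v, x), (v, x, z), (z, x, v)} : Finset (V × V × V)) ⊆ QQ G := by
        intro t ht
        simp only [Finset.mem_insert, Finset.mem_singleton] at ht
        simp only [QQ, Finset.mem_filter, Finset.mem_univ, true_and]
        rcases ht with rfl | rfl | rfl | rfl
        · exact ⟨hvx, hvy, hxy, hnxy⟩
        · exact ⟨hvy, hvx, hxy.symm, fun h => hnxy h.symm⟩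
        · exact ⟨hvx.symm, hxz, hzv.symm, hvz⟩
        · exact ⟨hxz, hvx.symm, hzv, fun h => hvz h.symm⟩
      have hc := Finset.card_le_card hsub
      have hvx' : v ≠ x := hvx.ne
      have hxv' : x ≠ v := hvx.ne.symm
      rw [Finset.card_insert_of_notMem, Finset.card_insert_of_notMem,
        Finset.card_insert_of_notMem, Finset.card_singleton] at hc
      · have hc' : (4 : ℤ) ≤ #(QQ G) := by exact_mod_cast hc
        rw [hd] at hsv
        have : (p : ℤ) = 2 ∨ (p : ℤ) = 3 := by omega
        rcases this with h | h <;> rw [h] at hsv hcon <;> norm_num at hsv hcon <;> linarith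
      · simp [hzv.symm]
      · simp [hvx', hxv']
      · simp [hxy, hvx', hxv']

end count

/-! ### The upper bound: a disjoint union of complete graphs -/

/-- disjoint union of complete graphs given by the fibres of `f` -/
def cl {V ι : Type} (f : V → ι) : SimpleGraph V where
  Adj u v := u ≠ v ∧ f u = f v
  symm := ⟨fun _ _ h => ⟨h.1.symm, h.2.symm⟩⟩
  loopless := ⟨fun _ h => h.1 rfl⟩

instance {V ι : Type} [DecidableEq V] [DecidableEq ι] (f : V → ι) : DecidableRel (cl f).Adj :=
  fun u v => by unfold cl; infer_instance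

/-- vertex set of the construction: one block of size `p`, `p + 1` blocks of size `p + 1` and
`b` blocks of size `p + 2` -/
def V0 (p b : ℕ) : Type := Fin p ⊕ (Fin (p + 1) × Fin (p + 1)) ⊕ (Fin b × Fin (p + 2))

instance (p b : ℕ) : DecidableEq (V0 p b) := by unfold V0; infer_instance

instance (p b : ℕ) : Fintype (V0 p b) := by unfold V0; infer_instance

/-- the block of a vertex -/
def blk (p b : ℕ) : V0 p b → ℕ :=
  Sum.elim (fun _ => 0) (Sum.elim (fun x => (x.1 : ℕ) + 1) (fun x => p + 2 + (x.1 : ℕ)))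

lemma sum_V0 (p b : ℕ) (F : V0 p b → ℤ) : ∑ v, F v = ∑ i : Fin p, F (Sum.inl i) +
    (∑ a : Fin (p + 1), ∑ i : Fin (p + 1), F (Sum.inr (Sum.inl (a, i))) +
      ∑ a : Fin b, ∑ i : Fin (p + 2), F (Sum.inr (Sum.inr (a, i)))) := by
  refine (Fintype.sum_sum_type (f := F)).trans ?_
  congr 1
  refine (Fintype.sum_sum_type (f := fun x => F (Sum.inr x))).trans ?_
  rw [Fintype.sum_prod_type, Fintype.sum_prod_type]

lemma deg_cl {V ι : Type} [Fintype V] [DecidableEq V] [DecidableEq ι] (f : V → ι) (v : V) :
    ((cl f).degree v : ℤ) = (∑ w : V, if f w = f v then 1 else 0) - 1 := by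
  have h : (cl f).neighborFinset v = (univ.filter (fun w => f w = f v)).erase v := by
    ext w
    simp only [SimpleGraph.mem_neighborFinset, Finset.mem_erase, Finset.mem_filter,
      Finset.mem_univ, true_and]
    show v ≠ w ∧ f v = f w ↔ _
    constructor
    · rintro ⟨h1, h2⟩; exact ⟨h1.symm, h2.symm⟩
    · rintro ⟨h1, h2⟩; exact ⟨h1.symm, h2.symm⟩
  rw [← SimpleGraph.card_neighborFinset_eq_degree, h, Finset.card_erase_of_mem (by simp)]
  have h1 : 0 < #(univ.filter (fun w => f w = f v)) := Finset.card_pos.mpr ⟨v, by simp⟩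
  rw [Finset.sum_boole]
  push_cast [Nat.cast_sub (show 1 ≤ _ from h1)]
  ring

/-- the degree of a vertex -/
def dg (p b : ℕ) : V0 p b → ℤ :=
  Sum.elim (fun _ => (p : ℤ) - 1) (Sum.elim (fun _ => (p : ℤ)) (fun _ => (p : ℤ) + 1))

lemma deg_V0 (p b : ℕ) (v : V0 p b) : ((cl (blk p b)).degree v : ℤ) = dg p b v := by
  have e1 : ∀ i, blk p b (Sum.inl i) = 0 := fun i => rfl
  have e2 : ∀ x, blk p b (Sum.inr (Sum.inl x)) = (x.1 : ℕ) + 1 := fun i => rfl
  have e3 : ∀ x, blk p b (Sum.inr (Sum.inr x)) = p + 2 + (x.1 : ℕ) := fun i => rfl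
  rw [deg_cl, sum_V0]
  rcases v with i | ⟨a, i⟩ | ⟨a, i⟩
  · simp only [e1, e2, e3, dg]
    simp
  · have h1 : ∀ x : Fin b, ¬ (p + 2 + (x : ℕ) = (a : ℕ) + 1) := fun x h => by
      have := a.2; omega
    simp only [e1, e2, e3, dg, h1]
    simp [Fin.val_inj]
  · have h1 : ∀ x : Fin (p + 1), ¬ ((x : ℕ) + 1 = p + 2 + (a : ℕ)) := fun x h => by
      have := x.2; omega
    have h2 : ¬ (0 = p + 2 + (a : ℕ)) := by omega
    simp only [e1, e2, e3, dg, h1, h2]
    simp [Fin.val_inj]
    ring

lemma QQ_cl {V ι : Type} [Fintype V] [DecidableEq V] [DecidableEq ι] (f : V → ι) :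
    #(QQ (cl f)) = 0 := by
  rw [Finset.card_eq_zero, Finset.eq_empty_iff_forall_notMem]
  rintro ⟨x, v, y⟩ h
  simp only [QQ, Finset.mem_filter, Finset.mem_univ, true_and] at h
  obtain ⟨h1, h2, h3, h4⟩ := h
  exact h4 ⟨h3, h1.2.symm.trans h2.2⟩

lemma two_choose (k : ℕ) : (2 * (k.choose 2) : ℤ) = k * (k - 1) := by
  have := Nat.choose_two_right k
  have h2 : 2 ∣ k * (k - 1) := (Nat.even_mul_pred_self k).two_dvd
  have h3 : 2 * (k.choose 2) = k * (k - 1) := by rw [this]; exact Nat.mul_div_cancel' h2
  rcases k with _ | k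
  · simp
  · have h4 : (2 * ((k + 1).choose 2) : ℤ) = ((k + 1 : ℕ) : ℤ) * ((k + 1 - 1 : ℕ) : ℤ) := by
      exact_mod_cast h3
    rw [h4]
    push_cast
    simp

/-- the number of vertices of the example -/
def nn (p b : ℕ) : ℕ := p + (p + 1) ^ 2 + b * (p + 2)

/-- the number of edges of the example -/
def ee (p b : ℕ) : ℕ := p.choose 2 + (p + 1) * (p + 1).choose 2 + b * (p + 2).choose 2

lemma two_ee (p b : ℕ) : (2 * ee p b : ℤ) =
    p * (p - 1) + (p + 1) * ((p + 1) * p) + b * ((p + 2) * (p + 1)) := by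
  have h1 := two_choose p
  have h2 := two_choose (p + 1)
  have h3 := two_choose (p + 2)
  push_cast at h1 h2 h3
  unfold ee
  push_cast
  linear_combination h1 + (p + 1 : ℤ) * h2 + (b : ℤ) * h3

lemma two_PP (p : ℕ) : (2 * PP p : ℤ) = (p + 2) * (p + 1) := by
  have h3 := two_choose (p + 2)
  push_cast at h3
  unfold PP
  linear_combination h3

lemma three_DD (p : ℕ) : (3 * DD p : ℤ) = p * (p + 1) * (p + 2) := by
  have h : 3 ∣ p * (p + 1) * (p + 2) := by
    have h3 : p % 3 = 0 ∨ p % 3 = 1 ∨ p % 3 = 2 := by omega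
    rcases h3 with h | h | h
    · exact Dvd.dvd.mul_right (Dvd.dvd.mul_right (Nat.dvd_of_mod_eq_zero h) _) _
    · exact Dvd.dvd.mul_left (by omega) _
    · exact Dvd.dvd.mul_right (Dvd.dvd.mul_left (by omega) _) _
  have h2 : 3 * DD p = p * (p + 1) * (p + 2) := by
    unfold DD; exact Nat.mul_div_cancel' h
  exact_mod_cast h2

lemma card_V0 (p b : ℕ) : Fintype.card (V0 p b) = nn p b := by
  have h : (Fintype.card (V0 p b) : ℤ) = ∑ _v : V0 p b, (1 : ℤ) := by simp
  rw [sum_V0] at h
  simp at h
  have : (Fintype.card (V0 p b) : ℤ) = nn p b := by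
    rw [h, nn]; push_cast; ring
  exact_mod_cast this

lemma edge_ncard {V : Type} [Fintype V] [DecidableEq V] (G : SimpleGraph V) [DecidableRel G.Adj] :
    (∑ v, (G.degree v : ℤ)) = 2 * G.edgeSet.ncard := by
  have h := G.sum_degrees_eq_twice_card_edges
  have h2 : G.edgeSet.ncard = #G.edgeFinset := by
    rw [← SimpleGraph.coe_edgeFinset, Set.ncard_coe_finset]
  rw [h2]
  exact_mod_cast h

lemma edges_V0 (p b : ℕ) : (cl (blk p b)).edgeSet.ncard = ee p b := by
  have h := edge_ncard (cl (blk p b))
  rw [Finset.sum_congr rfl (fun v _ => deg_V0 p b v), sum_V0] at h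
  simp only [dg, Sum.elim_inl, Sum.elim_inr, Finset.sum_const, Finset.card_univ, Fintype.card_fin,
    nsmul_eq_mul] at h
  have h2 := two_ee p b
  push_cast at h
  have : (2 * (cl (blk p b)).edgeSet.ncard : ℤ) = 2 * ee p b := by
    rw [← h, h2]; ring
  have h3 : 2 * (cl (blk p b)).edgeSet.ncard = 2 * ee p b := by exact_mod_cast this
  omega

lemma s3_V0 (p b : ℕ) : (6 * s3 (cl (blk p b)) : ℤ) =
    p * (p - 1) * (p - 2) + (p + 1) * (p + 1) * (p * (p - 1)) +
      b * (p + 2) * ((p + 1) * p) := by
  have h := six_s3_eq (cl (blk p b))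
  rw [QQ_cl] at h
  simp only [deg_V0] at h
  rw [sum_V0] at h
  simp only [dg, Sum.elim_inl, Sum.elim_inr, Finset.sum_const, Finset.card_univ, Fintype.card_fin,
    nsmul_eq_mul] at h
  rw [h]
  push_cast
  ring

/-- upper bound for `m(n,e)` -/
lemma m_upper (p b : ℕ) : (6 * m (nn p b) (ee p b) : ℤ) ≤
    p * (p - 1) * (p - 2) + (p + 1) * (p + 1) * (p * (p - 1)) +
      b * (p + 2) * ((p + 1) * p) := by
  rw [← s3_V0]
  have : m (nn p b) (ee p b) ≤ s3 (cl (blk p b)) :=
    Nat.sInf_le ⟨V0 p b, inferInstance, cl (blk p b), card_V0 p b, edges_V0 p b, rfl⟩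
  exact_mod_cast Nat.mul_le_mul_left 6 this

/-- lower bound for `s₃` with `e + P_p` edges -/
lemma s3_lower (p b : ℕ) (hp : 2 ≤ p) {V : Type} [Fintype V] (G : SimpleGraph V)
    (hn : Fintype.card V = nn p b) (he : G.edgeSet.ncard = ee p b + PP p) :
    2 * (p : ℤ) + 2 * p * (2 * (ee p b + PP p)) - p * (p + 1) * nn p b < 6 * s3 G := by
  classical
  have hE := edge_ncard G
  rw [he] at hE
  push_cast at hE
  have h1 := two_ee p b
  have h2 := two_PP p
  have hsum : ∑ v, ((p : ℤ) + 1 - G.degree v) = p - 1 := by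
    rw [Finset.sum_sub_distrib, hE, Finset.sum_const, Finset.card_univ, hn, nn]
    simp only [nsmul_eq_mul]
    push_cast
    linear_combination -h1 - h2
  have hex := excess G p hp hsum
  have hs := six_s3_eq G
  have hid : ∑ v, ((G.degree v : ℤ) - p) * ((G.degree v : ℤ) - p - 1) =
      ∑ v, (G.degree v : ℤ) * (G.degree v - 1) - 2 * p * ∑ v, (G.degree v : ℤ)
        + p * (p + 1) * nn p b := by
    rw [Finset.mul_sum, ← Finset.sum_sub_distrib]
    have hc : (p : ℤ) * (p + 1) * nn p b = ∑ _v : V, (p : ℤ) * (p + 1) := by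
      rw [Finset.sum_const, Finset.card_univ, hn, nsmul_eq_mul]; ring
    rw [hc, ← Finset.sum_add_distrib]
    exact Finset.sum_congr rfl fun v _ => by ring
  rw [hE] at hid
  linarith

/-- The conjectured periodicity fails for every `p ≥ 2` (and infinitely many `n` for each `p`). -/
theorem result (p b : ℕ) (hp : 2 ≤ p) (hb : 1 ≤ b) :
    p * nn p b < 2 * ee p b ∧
    2 * (ee p b + PP p) < (p + 1) * nn p b ∧
    m (nn p b) (ee p b) + DD p + 1 ≤ m (nn p b) (ee p b + PP p) := by
  have hpz : (2 : ℤ) ≤ p := by exact_mod_cast hp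
  have hbz : (1 : ℤ) ≤ b := by exact_mod_cast hb
  have h1 := two_ee p b
  have h2 := two_PP p
  have h3 := three_DD p
  have hn : (nn p b : ℤ) = p + (p + 1) ^ 2 + b * (p + 2) := by unfold nn; push_cast; ring
  refine ⟨?_, ?_, ?_⟩
  · have : (p * nn p b : ℤ) < 2 * ee p b := by rw [h1, hn]; nlinarith
    exact_mod_cast this
  · have : (2 * (ee p b + PP p) : ℤ) < (p + 1) * nn p b := by
      have : (2 * (ee p b + PP p) : ℤ) = 2 * ee p b + 2 * PP p := by ring
      rw [this, h1, h2, hn]; nlinarith
    exact_mod_cast this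
  · have hup := m_upper p b
    -- the infimum is attained
    have hne : {s | ∃ (V : Type) (_ : Fintype V) (G : SimpleGraph V),
        Fintype.card V = nn p b ∧ G.edgeSet.ncard = ee p b + PP p ∧ s3 G = s}.Nonempty := by
      classical
      have hle : ee p b + PP p ≤ #(⊤ : SimpleGraph (Fin (nn p b))).edgeFinset := by
        rw [SimpleGraph.card_edgeFinset_top_eq_card_choose_two, Fintype.card_fin]
        have h4 := two_choose (nn p b)
        have : (2 * (ee p b + PP p) : ℤ) ≤ 2 * (nn p b).choose 2 := by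
          rw [h4]
          have h5 : (2 * (ee p b + PP p) : ℤ) = 2 * ee p b + 2 * PP p := by ring
          rw [h5, h1, h2, hn]
          nlinarith [mul_nonneg (by linarith : (0:ℤ) ≤ b) (by linarith : (0:ℤ) ≤ p)]
        have h6 : (ee p b + PP p : ℤ) ≤ (nn p b).choose 2 := by linarith
        exact_mod_cast h6
      obtain ⟨E, hE, hEc⟩ := Finset.exists_subset_card_eq hle
      refine ⟨_, Fin (nn p b), inferInstance, SimpleGraph.fromEdgeSet (E : Set (Sym2 _)),
        Fintype.card_fin _, ?_, rfl⟩
      rw [SimpleGraph.edgeSet_fromEdgeSet]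
      have : (E : Set (Sym2 (Fin (nn p b)))) \ Sym2.diagSet = E := by
        ext x
        simp only [Set.mem_sdiff, Sym2.mem_diagSet, Finset.mem_coe, and_iff_left_iff_imp]
        intro hx
        have := hE hx
        rw [SimpleGraph.mem_edgeFinset] at this
        exact SimpleGraph.not_isDiag_of_mem_edgeSet _ this
      rw [this, Set.ncard_coe_finset, hEc]
    obtain ⟨V, hV, G, hc, he, hs⟩ := Nat.sInf_mem hne
    have hlow := s3_lower p b hp G hc he
    have hm : m (nn p b) (ee p b + PP p) = s3 G := hs.symm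
    rw [hm]
    have key : (6 * (m (nn p b) (ee p b) + DD p) : ℤ) < 6 * s3 G := by
      refine lt_of_le_of_lt ?_ hlow
      have e6 : (6 * (m (nn p b) (ee p b) + DD p) : ℤ) =
          6 * m (nn p b) (ee p b) + 2 * (3 * DD p) := by ring
      have e7 : (2 * (p : ℤ) + 2 * p * (2 * (ee p b + PP p)) - p * (p + 1) * nn p b) =
          2 * p + 2 * p * (2 * ee p b) + 2 * p * (2 * PP p) - p * (p + 1) * nn p b := by ring
      rw [e6, e7, h3, h1, h2, hn]
      nlinarith
    have : m (nn p b) (ee p b) + DD p < s3 G := by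
      have : (m (nn p b) (ee p b) + DD p : ℤ) < s3 G := by linarith
      exact_mod_cast this
    omega

end Pool.Agent.Results.MP_6d30b5_co.PeriodicityFails
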